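import Mathlib

/-!
# The smallest function `F ≥ 0` with `F + |y|²` concave (project MP_a2630c_FU, row FS)
-/

set_option autoImplicit false

open Set Metric Filter Topology
open scoped RealInnerProductSpace

namespace Pool.Agent.Helper56.FU

variable {V : Type*} [NormedAddCommGroup V] [InnerProductSpace ℝ V]

/-- The affine function `⟨a, ·⟩ + c` is a majorant of `|·|²` on `K`. -/
def Maj (K : Set V) (a : V) (c : ℝ) : Prop := ∀ x ∈ K, ‖x‖ ^ 2 ≤ inner ℝ a x + c

/-- The values at `y` of the affine majorants, minus `|y|²`. -/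
def FstS (K : Set V) (y : V) : Set ℝ := {r | ∃ (a : V) (c : ℝ), Maj K a c ∧
  r = inner ℝ a y + c - ‖y‖ ^ 2}

/-- Concave envelope on `K` of `|·|²`, minus `|·|²`. -/
noncomputable def Fst (K : Set V) (y : V) : ℝ := sInf (FstS K y)

/-- Supergradients of concave functions on open sets. -/
theorem supergrad [FiniteDimensional ℝ V] {U : Set V} (hU : IsOpen U) {φ : V → ℝ}
    (hφ : ConcaveOn ℝ U φ) {y : V} (hy : y ∈ U) :
    ∃ a : V, ∀ x ∈ U, φ x ≤ φ y + inner ℝ a (x - y) := by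
  have hc : ContinuousOn φ U := hφ.continuousOn hU
  set S : Set (V × ℝ) := {p | p.1 ∈ U ∧ p.2 < φ p.1} with hS
  have hSc : Convex ℝ S := hφ.convex_strict_hypograph
  have hSo : IsOpen S := by
    have h1 : ContinuousOn (fun p : V × ℝ => φ p.1 - p.2) (U ×ˢ univ) :=
      (hc.comp continuousOn_fst fun p hp => hp.1).sub continuousOn_snd
    have h2 := h1.isOpen_inter_preimage (hU.prod isOpen_univ) (isOpen_Ioi (a := (0 : ℝ)))
    have h3 : S = (U ×ˢ univ) ∩ (fun p : V × ℝ => φ p.1 - p.2) ⁻¹' Ioi 0 := by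
      ext p
      simp [hS]
    rw [h3]
    exact h2
  have hn : (y, φ y) ∉ S := fun h => lt_irrefl _ h.2
  obtain ⟨f, hf⟩ := geometric_hahn_banach_open_point hSc hSo hn
  set q := f (0, 1) with hq
  have hlin : ∀ (x : V) (s : ℝ), f (x, s) = f (x, 0) + s * q := by
    intro x s
    have : ((x, s) : V × ℝ) = (x, 0) + s • ((0, 1) : V × ℝ) := by ext <;> simp
    rw [this, map_add, map_smul, smul_eq_mul]
  have hq0 : 0 < q := by
    have h1 := hf (y, φ y - 1) ⟨hy, by simp⟩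
    rw [hlin, hlin y (φ y)] at h1
    linarith
  set g : V →L[ℝ] ℝ := (-q⁻¹) • (f.comp (ContinuousLinearMap.inl ℝ V ℝ)) with hg
  have hgv : ∀ x, g x = -q⁻¹ * f (x, 0) := by
    intro x
    simp [hg]
  refine ⟨(InnerProductSpace.toDual ℝ V).symm g, fun x hx => ?_⟩
  rw [InnerProductSpace.toDual_symm_apply, map_sub, hgv, hgv]
  refine le_of_forall_lt fun s hs => ?_
  have h1 := hf (x, s) ⟨hx, hs⟩
  rw [hlin, hlin y (φ y)] at h1
  have h2 : q⁻¹ * (f (x, 0) + s * q) < q⁻¹ * (f (y, 0) + φ y * q) :=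
    mul_lt_mul_of_pos_left h1 (inv_pos.2 hq0)
  have h3 : q⁻¹ * (f (x, 0) + s * q) = q⁻¹ * f (x, 0) + s := by field_simp
  have h4 : q⁻¹ * (f (y, 0) + φ y * q) = q⁻¹ * f (y, 0) + φ y := by field_simp
  rw [h3, h4] at h2
  linarith

variable {K : Set V}

theorem fst_ball {p : V} {R : ℝ} (h : K ⊆ closedBall p R) (y : V) :
    R ^ 2 - ‖y - p‖ ^ 2 ∈ FstS K y := by
  refine ⟨(2 : ℝ) • p, R ^ 2 - ‖p‖ ^ 2, fun x hx => ?_, ?_⟩
  · have h1 := h hx
    rw [mem_closedBall, dist_eq_norm] at h1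
    have h2 : ‖x - p‖ ^ 2 ≤ R ^ 2 := pow_le_pow_left₀ (norm_nonneg _) h1 2
    have h3 := norm_sub_sq_real x p
    rw [inner_smul_left, real_inner_comm]
    simp only [conj_trivial]
    linarith
  · have h3 := norm_sub_sq_real y p
    rw [inner_smul_left, real_inner_comm]
    simp only [conj_trivial]
    linarith

theorem fst_nonempty (hK : Bornology.IsBounded K) (y : V) : (FstS K y).Nonempty := by
  obtain ⟨R, hR⟩ := hK.subset_closedBall (0 : V)
  exact ⟨_, fst_ball hR y⟩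

theorem fst_bdd {y : V} (hy : y ∈ K) : ∀ r ∈ FstS K y, 0 ≤ r := by
  rintro r ⟨a, c, h, rfl⟩
  have := h y hy
  linarith

theorem fst_bddBelow {y : V} (hy : y ∈ K) : BddBelow (FstS K y) := ⟨0, fst_bdd hy⟩

/-- (a) -/
theorem fst_nonneg (hK : Bornology.IsBounded K) {y : V} (hy : y ∈ K) : 0 ≤ Fst K y :=
  le_csInf (fst_nonempty hK y) (fst_bdd hy)

theorem fst_le {y : V} (hy : y ∈ K) {a : V} {c : ℝ} (h : Maj K a c) :
    Fst K y ≤ inner ℝ a y + c - ‖y‖ ^ 2 := csInf_le (fst_bddBelow hy) ⟨a, c, h, rfl⟩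

theorem le_fst (hK : Bornology.IsBounded K) {y : V} {r : ℝ}
    (h : ∀ (a : V) (c : ℝ), Maj K a c → r ≤ inner ℝ a y + c - ‖y‖ ^ 2) : r ≤ Fst K y := by
  refine le_csInf (fst_nonempty hK y) ?_
  rintro s ⟨a, c, hm, rfl⟩
  exact h a c hm

theorem fst_le_ball {p : V} {R : ℝ} (h : K ⊆ closedBall p R) {y : V} (hy : y ∈ K) :
    Fst K y ≤ R ^ 2 - ‖y - p‖ ^ 2 := csInf_le (fst_bddBelow hy) (fst_ball h y)

/-- (b) -/
theorem fst_concave (hK : Bornology.IsBounded K) (hc : Convex ℝ K) :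
    ConcaveOn ℝ K (fun y => Fst K y + ‖y‖ ^ 2) := by
  refine ⟨hc, fun y hy z hz s t hs ht hst => ?_⟩
  have h1 : s • (Fst K y + ‖y‖ ^ 2) + t • (Fst K z + ‖z‖ ^ 2) - ‖s • y + t • z‖ ^ 2 ≤
      Fst K (s • y + t • z) := by
    refine le_fst hK fun a c hm => ?_
    have h2 := fst_le hy hm
    have h3 := fst_le hz hm
    rw [inner_add_right, inner_smul_right, inner_smul_right, smul_eq_mul, smul_eq_mul]
    have h4 : s * (Fst K y + ‖y‖ ^ 2) ≤ s * (inner ℝ a y + c) :=
      mul_le_mul_of_nonneg_left (by linarith) hs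
    have h5 : t * (Fst K z + ‖z‖ ^ 2) ≤ t * (inner ℝ a z + c) :=
      mul_le_mul_of_nonneg_left (by linarith) ht
    have h6 : s * (inner ℝ a y + c) + t * (inner ℝ a z + c) =
        s * inner ℝ a y + t * inner ℝ a z + c := by
      have : s * (inner ℝ a y + c) + t * (inner ℝ a z + c) =
        s * inner ℝ a y + t * inner ℝ a z + (s + t) * c := by ring
      rw [this, hst, one_mul]
    linarith
  simp only [smul_eq_mul] at h1 ⊢
  linarith

/-- (c) -/
theorem fst_ge (hK : Bornology.IsBounded K) {y e : V} (h1 : y + e ∈ K) (h2 : y - e ∈ K) :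
    ‖e‖ ^ 2 ≤ Fst K y := by
  refine le_fst hK fun a c hm => ?_
  have h3 := hm _ h1
  have h4 := hm _ h2
  rw [inner_add_right] at h3
  rw [inner_sub_right] at h4
  have h5 := norm_add_sq_real y e
  have h6 := norm_sub_sq_real y e
  linarith

theorem fst_pos [Nontrivial V] (hK : Bornology.IsBounded K) {y : V} (hy : y ∈ interior K) :
    0 < Fst K y := by
  obtain ⟨ε, hε, hb⟩ := Metric.isOpen_iff.1 isOpen_interior y hy
  obtain ⟨e, he⟩ := exists_norm_eq V (by positivity : 0 ≤ ε / 2)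
  have h1 : y + e ∈ K := interior_subset (hb (by
    rw [mem_ball, dist_eq_norm, add_sub_cancel_left, he]; linarith))
  have h2 : y - e ∈ K := interior_subset (hb (by
    rw [mem_ball, dist_eq_norm, sub_sub_cancel_left, norm_neg, he]; linarith))
  refine lt_of_lt_of_le ?_ (fst_ge hK h1 h2)
  rw [he]
  positivity

/-- (d) -/
theorem fst_zero (hK : Bornology.IsBounded K) {x₀ : V} (hx : x₀ ∈ K) {p : V} {R : ℝ}
    (h : K ⊆ closedBall p R) (hR : ‖x₀ - p‖ = R) : Fst K x₀ = 0 := by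
  refine le_antisymm ?_ (fst_nonneg hK hx)
  have := fst_le_ball h hx
  rw [hR] at this
  linarith

/-- Upper semicontinuity. -/
theorem fst_usc (hK : Bornology.IsBounded K) {y : V} {ε : ℝ} (hε : 0 < ε) :
    ∀ᶠ z in 𝓝[K] y, Fst K z < Fst K y + ε := by
  obtain ⟨r, ⟨a, c, hm, rfl⟩, hr⟩ := exists_lt_of_csInf_lt (fst_nonempty hK y)
    (show sInf (FstS K y) < Fst K y + ε from lt_add_of_pos_right _ hε)
  have hc : Continuous fun z : V => (inner ℝ a z : ℝ) + c - ‖z‖ ^ 2 := by fun_prop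
  have h1 : ∀ᶠ z in 𝓝[K] y, (inner ℝ a z : ℝ) + c - ‖z‖ ^ 2 < Fst K y + ε :=
    (hc.continuousAt.eventually (gt_mem_nhds hr)).filter_mono nhdsWithin_le_nhds
  filter_upwards [h1, self_mem_nhdsWithin] with z hz hzK
  exact (fst_le hzK hm).trans_lt hz

/-- Continuity. -/
theorem fst_cont [FiniteDimensional ℝ V] (hK : IsCompact K) (hc : Convex ℝ K)
    (hb : ∀ x₀ ∈ frontier K, ∃ (p : V) (R : ℝ), K ⊆ closedBall p R ∧ ‖x₀ - p‖ = R) :
    ContinuousOn (Fst K) K := by
  intro y hy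
  by_cases h : y ∈ interior K
  · have h1 : ContinuousOn (fun y => Fst K y + ‖y‖ ^ 2) (interior K) :=
      (fst_concave hK.isBounded hc).continuousOn_interior
    have h2 : ContinuousAt (fun y => Fst K y + ‖y‖ ^ 2) y :=
      h1.continuousAt (isOpen_interior.mem_nhds h)
    have h3 : ContinuousAt (fun y => Fst K y + ‖y‖ ^ 2 - ‖y‖ ^ 2) y :=
      h2.sub (by fun_prop)
    simp only [add_sub_cancel_right] at h3
    exact h3.continuousWithinAt
  · have hf : y ∈ frontier K := ⟨subset_closure hy, h⟩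
    obtain ⟨p, R, hp, hR⟩ := hb y hf
    have h0 := fst_zero hK.isBounded hy hp hR
    rw [ContinuousWithinAt, Metric.tendsto_nhds]
    intro ε hε
    filter_upwards [fst_usc hK.isBounded (y := y) hε, self_mem_nhdsWithin] with z hz hzK
    have h1 := fst_nonneg hK.isBounded hzK
    rw [h0] at hz ⊢
    rw [Real.dist_eq, sub_zero, abs_of_nonneg h1]
    linarith

/-- (e) Minimality. -/
theorem fst_min [FiniteDimensional ℝ V] (hK : IsCompact K) (hc : Convex ℝ K)
    (hne : (interior K).Nonempty) {F : V → ℝ} (h0 : ∀ y ∈ interior K, 0 ≤ F y)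
    (hF : ConcaveOn ℝ (interior K) (fun y => F y + ‖y‖ ^ 2)) {y : V} (hy : y ∈ interior K) :
    Fst K y ≤ F y := by
  obtain ⟨a, ha⟩ := supergrad isOpen_interior hF hy
  have hm : Maj K a (F y + ‖y‖ ^ 2 - inner ℝ a y) := by
    have h1 : ∀ x ∈ interior K, ‖x‖ ^ 2 ≤ inner ℝ a x + (F y + ‖y‖ ^ 2 - inner ℝ a y) := by
      intro x hx
      have h2 := ha x hx
      have h3 := h0 x hx
      rw [inner_sub_right] at h2
      linarith
    have hcl : IsClosed {x : V | ‖x‖ ^ 2 ≤ inner ℝ a x + (F y + ‖y‖ ^ 2 - inner ℝ a y)} :=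
      isClosed_le (by fun_prop) (by fun_prop)
    intro x hx
    have h4 : closure (interior K) = K := by
      rw [hc.closure_interior_eq_closure_of_nonempty_interior hne, hK.isClosed.closure_eq]
    rw [← h4] at hx
    exact hcl.closure_subset_iff.2 h1 hx
  have := fst_le (interior_subset hy) hm
  linarith

end Pool.Agent.Helper56.FU
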