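import Pool.Agent.Helper73.FU.Stmts
import Pool.Agent.Helper56.FU.FS

/-!
# Row FS of project MP_a2630c_FU: the function `F_*`
-/

set_option autoImplicit false

open MeasureTheory Set Metric Real Filter Topology
open scoped RealInnerProductSpace
open Pool.Agent.Helper16.Buoy (E)
open Pool.Agent.Helper73.LR (CB)
open Pool.Agent.Helper73.FU (S_fs AF Fs)

namespace Pool.Agent.Helper56.FU

variable {n : ℕ}

theorem Fs_eq (K : Set (E n)) (y : E n) : Fs K y = Fst K y := rfl

theorem s_fs : S_fs := by
  intro n K hn hK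
  have : Nonempty (Fin n) := ⟨⟨0, by omega⟩⟩
  have : Nontrivial (E n) := inferInstance
  have hb := hK.comp.isBounded
  refine ⟨⟨fun y hy => fst_pos hb hy, ?_, ?_⟩, fun H h0 hH y hy =>
    fst_min hK.comp hK.conv hK.int h0 hH hy⟩
  · exact (fst_concave hb hK.conv).subset interior_subset hK.conv.interior
  · obtain ⟨R, hR⟩ := hb.subset_closedBall (0 : E n)
    refine ⟨R ^ 2, fun y hy => ?_⟩
    have h1 := fst_le_ball hR (interior_subset hy)
    have h2 : 0 ≤ ‖y - 0‖ ^ 2 := sq_nonneg _
    rw [Fs_eq]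
    linarith

end Pool.Agent.Helper56.FU
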